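import Pool.Agent.Helper22.G4.St.C0

/-! # G4-C1: the list of vertices of the base polytope has no repetitions -/

namespace Pool.Agent.Helper91.G4
open Pool.Agent.Helper22.G4

/-- the number of the operation a vertex belongs to -/
def key (v : Vx) : ℕ := if v.1 = 0 then (v.2.1 - 1) / 4 else v.2.1 / 3

theorem key_of_mem {N : ℕ} {d : OpD} {v : Vx} (h : v ∈ OpD.verts N d) : key v = d.n := by
  simp only [OpD.verts, List.mem_cons, List.not_mem_nil, or_false] at h
  rcases h with h | h | h | h | h | h | h | h | h | h | h | h | h | h | h | h | h | h <;>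
    subst h <;>
    simp only [key, Vx.u, Vx.p, Vx.q, OpD.pa, OpD.pb, OpD.pc, OpD.pd, OpD.g0, OpD.g1, OpD.g2,
      if_true] <;> first | omega | (norm_num <;> omega)

theorem opds_map_n (I : NF) : I.opds.map OpD.n = List.range I.ops.length := by
  have h1 : I.opds.map OpD.n = I.ops.zipIdx.map Prod.snd := by
    rw [NF.opds, List.map_map]
    rfl
  rw [h1, List.zipIdx_map_snd, List.range_eq_range']

theorem opds_pairwise (I : NF) : I.opds.Pairwise (fun d e => d.n ≠ e.n) := by
  have h := List.nodup_range (n := I.ops.length)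
  rw [← opds_map_n I] at h
  exact (List.pairwise_map.1 h)

/-- G4-C1 (no repetitions). -/
theorem NF.verts_nodup {I : NF} (hI : I.OK) : I.data.verts.Nodup := by
  have hop : ∀ d ∈ I.opds, (OpD.verts I.N d).Nodup := by
    intro d hd
    obtain ⟨-, h1, h2, h3, h4, h5, h6, h7, -, -⟩ := NF.opd_ok hI hd
    simp only [OpD.verts, Vx.u, Vx.p, Vx.q, OpD.pa, OpD.pb, OpD.pc, OpD.pd, OpD.g0, OpD.g1,
      OpD.g2, List.nodup_cons, List.mem_cons, List.not_mem_nil, or_false, Prod.mk.injEq,
      List.nodup_nil, and_true, not_false_eq_true]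
    refine ⟨?_, ?_, ?_, ?_, ?_, ?_, ?_, ?_, ?_, ?_, ?_, ?_, ?_, ?_, ?_, ?_, ?_⟩ <;> omega
  have hfl : (I.opds.flatMap (OpD.verts I.N)).Nodup := by
    rw [List.nodup_flatMap]
    refine ⟨hop, (opds_pairwise I).imp ?_⟩
    intro d e hde v hv hv'
    exact hde ((key_of_mem hv).symm.trans (key_of_mem hv'))
  have hrange : ((List.range I.N).map (fun i => Vx.u 0 i (i + 1))).Nodup := by
    refine List.nodup_range.map ?_
    intro i j hij
    simp only [Vx.u, Prod.mk.injEq] at hij
    exact hij.2.2.1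
  have htag : ∀ d : OpD, ∀ v ∈ OpD.verts I.N d, v ≠ Vx.b1 ∧ v ≠ Vx.b2 ∧
      ∀ i, v ≠ Vx.u 0 i (i + 1) := by
    intro d v h
    simp only [OpD.verts, List.mem_cons, List.not_mem_nil, or_false] at h
    rcases h with h | h | h | h | h | h | h | h | h | h | h | h | h | h | h | h | h | h <;>
      subst h <;>
      simp [Vx.u, Vx.p, Vx.q, Vx.b1, Vx.b2, OpD.pa, OpD.pb, OpD.pc, OpD.pd]
  have hbody : ((List.range I.N).map (fun i => Vx.u 0 i (i + 1)) ++
      I.opds.flatMap (OpD.verts I.N)).Nodup := by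
    rw [List.nodup_append']
    refine ⟨hrange, hfl, ?_⟩
    intro v hv hv'
    rw [List.mem_map] at hv
    obtain ⟨i, -, rfl⟩ := hv
    rw [List.mem_flatMap] at hv'
    obtain ⟨d, -, hv'⟩ := hv'
    exact (htag d _ hv').2.2 i rfl
  have hb : ∀ v ∈ (List.range I.N).map (fun i => Vx.u 0 i (i + 1)) ++
      I.opds.flatMap (OpD.verts I.N), v ≠ Vx.b1 ∧ v ≠ Vx.b2 := by
    intro v hv
    rw [List.mem_append] at hv
    rcases hv with hv | hv
    · rw [List.mem_map] at hv
      obtain ⟨i, -, rfl⟩ := hv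
      simp [Vx.u, Vx.b1, Vx.b2]
    · rw [List.mem_flatMap] at hv
      obtain ⟨d, -, hv⟩ := hv
      exact ⟨(htag d _ hv).1, (htag d _ hv).2.1⟩
  show (Vx.b1 :: Vx.b2 :: ((List.range I.N).map (fun i => Vx.u 0 i (i + 1)) ++
    I.opds.flatMap (OpD.verts I.N))).Nodup
  rw [List.nodup_cons, List.nodup_cons]
  refine ⟨?_, fun h => (hb _ h).2 rfl, hbody⟩
  rw [List.mem_cons]
  rintro (h | h)
  · simp [Vx.b1, Vx.b2] at h
  · exact (hb _ h).1 rfl

end Pool.Agent.Helper91.G4
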