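import Pool.Agent.Helper22.G4.GenFam
import Pool.Agent.Helper22.G4.St.A2
import Pool.Agent.Helper22.G4.St.A4

/-! # G4-G2: first step of the generic construction, stacking all facets -/

namespace Pool.Agent.Helper91.G4
open Pool.Agent.Helper22.G4

open Submodule

section
variable {α φ : Type}

theorem mem_Fs {D : Data α φ} {f : φ} {a : α} :
    (W.v a : W α φ) ∈ D.Fs f ↔ a ∈ D.verts ∧ D.mem f a := by
  constructor
  · rintro ⟨b, hb, hm, he⟩
    have : a = b := Sum.inl_injective he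
    subst this
    exact ⟨hb, hm⟩
  · rintro ⟨hb, hm⟩
    exact ⟨a, hb, hm, rfl⟩

theorem x_notMem_Fs {D : Data α φ} {f : φ} {w : W α φ} {g : φ} (h : w ∈ D.Fs f) : w ≠ W.x g := by
  rintro rfl
  obtain ⟨b, _, _, he⟩ := h
  exact Sum.inr_ne_inl he

theorem Fs_sub {D : Data α φ} (hD : D.Good) {f g : φ} (hf : f ∈ D.fcodes) (hg : g ∈ D.fcodes)
    (h : D.Fs f ⊆ D.Fs g) : f = g :=
  hD.anti f hf g hg fun v hv hm => (mem_Fs.1 (h (mem_Fs.2 ⟨hv, hm⟩))).2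

theorem FAdj_comm {V : Type*} {A : Finset V} {𝓩 : Set (Set V)} {u v : V} :
    FAdj A 𝓩 u v ↔ FAdj A 𝓩 v u := by
  constructor <;> intro h t ht h1 h2 <;> obtain ⟨Z, hZ, a, b, c⟩ := h t ht h2 h1 <;>
    exact ⟨Z, hZ, b, a, c⟩

theorem exists_two {D : Data α φ} (hD : D.Good) :
    ∃ a ∈ D.verts, ∃ b ∈ D.verts, a ≠ b := by
  have h := hD.big
  have h0 : 0 < D.verts.length := by omega
  have h1 : 1 < D.verts.length := by omega
  refine ⟨D.verts[0], List.getElem_mem _, D.verts[1], List.getElem_mem _, fun he => ?_⟩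
  exact absurd ((hD.vnd.getElem_inj_iff).1 he) (by omega)

theorem Fs_ne_all {D : Data α φ} (hD : D.Good) {f : φ} (hf : f ∈ D.fcodes) :
    ∃ a ∈ D.verts, ¬ D.mem f a := by
  by_contra hcon
  push Not at hcon
  obtain ⟨a, ha, b, hb, hab⟩ := exists_two hD
  obtain ⟨g, hg, h1, h2⟩ := hD.fvert a ha b hb hab.symm
  have : g = f := hD.anti g hg f hf fun v hv _ => hcon v hv
  subst this
  exact h2 (hcon b hb)

end

variable {α φ : Type} [DecidableEq α] [DecidableEq φ]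

theorem mem_l0 {D : Data α φ} {w : W α φ} : w ∈ D.l0.toFinset ↔ ∃ a ∈ D.verts, w = W.v a := by
  rw [List.mem_toFinset, Data.l0, List.mem_map]
  constructor <;> rintro ⟨a, h1, h2⟩ <;> exact ⟨a, h1, h2.symm⟩

/-- the stacked vertices -/
def BB (D : Data α φ) : Finset (W α φ) := (D.fcodes.map W.x).toFinset

theorem mem_BB {D : Data α φ} {w : W α φ} : w ∈ BB D ↔ ∃ f ∈ D.fcodes, w = W.x f := by
  rw [BB, List.mem_toFinset, List.mem_map]
  constructor <;> rintro ⟨a, h1, h2⟩ <;> exact ⟨a, h1, h2.symm⟩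

/-- the facets to be stacked -/
def TT (D : Data α φ) : W α φ → Finset (W α φ)
  | .inr (.inl f) => ((D.verts.filter (fun a => D.mem f a)).map W.v).toFinset
  | _ => ∅

theorem coe_TT (D : Data α φ) (f : φ) : (TT D (W.x f) : Set (W α φ)) = D.Fs f := by
  ext w
  simp only [TT, W.x, Finset.mem_coe, List.mem_toFinset, List.mem_map, List.mem_filter, Data.Fs,
    Set.mem_setOf_eq]
  constructor
  · rintro ⟨a, ⟨h1, h2⟩, h3⟩
    exact ⟨a, h1, h2, h3.symm⟩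
  · rintro ⟨a, h1, h2, h3⟩
    exact ⟨a, ⟨h1, h2⟩, h3.symm⟩

/-- the members of the family that are stacked -/
def VV (D : Data α φ) : W α φ → Set (Set (W α φ)) := fun z => {Z | Z = (TT D z : Set (W α φ))}

theorem l1_eq (D : Data α φ) : D.l1.toFinset = D.l0.toFinset ∪ BB D := by
  rw [Data.l1, List.toFinset_append, BB]

theorem disj01 (D : Data α φ) : Disjoint D.l0.toFinset (BB D) := by
  rw [Finset.disjoint_left]
  intro w h1 h2
  obtain ⟨a, -, rfl⟩ := mem_l0.1 h1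
  obtain ⟨f, -, h⟩ := mem_BB.1 h2
  exact Sum.inl_ne_inr h

theorem Fs_subset (D : Data α φ) (f : φ) : D.Fs f ⊆ (D.l0.toFinset : Set (W α φ)) := by
  rintro w ⟨a, ha, -, rfl⟩
  exact mem_l0.2 ⟨a, ha, rfl⟩

theorem TT_inj {D : Data α φ} (hD : D.Good) {z y : W α φ} (hz : z ∈ BB D) (hy : y ∈ BB D)
    (h : (TT D z : Set (W α φ)) ⊆ (TT D y : Set (W α φ))) : z = y := by
  obtain ⟨f, hf, rfl⟩ := mem_BB.1 hz
  obtain ⟨g, hg, rfl⟩ := mem_BB.1 hy
  rw [coe_TT, coe_TT] at h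
  rw [Fs_sub hD hf hg h]

theorem TT_card {D : Data α φ} (hD : D.Good) {z : W α φ} (hz : z ∈ BB D) : 3 ≤ (TT D z).card := by
  obtain ⟨f, hf, rfl⟩ := mem_BB.1 hz
  obtain ⟨a, ha, b, hb, c, hc, hab, hac, hbc, ma, mb, mc⟩ := hD.fac3 f hf
  have hin : ∀ x ∈ D.verts, D.mem f x → (W.v x : W α φ) ∈ TT D (W.x f) := by
    intro x hx hm
    have : (W.v x : W α φ) ∈ (TT D (W.x f) : Set (W α φ)) := by
      rw [coe_TT]
      exact mem_Fs.2 ⟨hx, hm⟩
    exact this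
  have hsub : ({W.v a, W.v b, W.v c} : Finset (W α φ)) ⊆ TT D (W.x f) := by
    intro w hw
    simp only [Finset.mem_insert, Finset.mem_singleton] at hw
    rcases hw with rfl | rfl | rfl
    · exact hin a ha ma
    · exact hin b hb mb
    · exact hin c hc mc
  have hcard : ({W.v a, W.v b, W.v c} : Finset (W α φ)).card = 3 := by
    apply Finset.card_eq_three.2
    exact ⟨W.v a, W.v b, W.v c, fun h => hab (Sum.inl_injective h),
      fun h => hac (Sum.inl_injective h), fun h => hbc (Sum.inl_injective h), rfl⟩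
  rw [← hcard]
  exact Finset.card_le_card hsub

theorem addFam_eq {D : Data α φ} (hD : D.Good) : addFam D.fam0 (BB D) (VV D) = D.fam1 := by
  ext Z
  constructor
  · rintro (⟨⟨f, hf, rfl⟩, h⟩ | ⟨z, hz, Z₁, ⟨f₁, hf₁, rfl⟩, h₁, Z₂, ⟨f₂, hf₂, rfl⟩, h₂, rfl⟩)
    · exact absurd (coe_TT D f).symm (h (W.x f) (mem_BB.2 ⟨f, hf, rfl⟩))
    · obtain ⟨f, hf, rfl⟩ := mem_BB.1 hz
      have e1 : D.Fs f₁ = D.Fs f := (h₁ : _ = _).trans (coe_TT D f)
      have e1' : f₁ = f := Fs_sub hD hf₁ hf e1.subset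
      subst e1'
      refine ⟨f₁, hf₁, f₂, hf₂, ?_, rfl⟩
      rintro rfl
      exact h₂ (coe_TT D f₁).symm
  · rintro ⟨f, hf, g, hg, hne, rfl⟩
    right
    refine ⟨W.x f, mem_BB.2 ⟨f, hf, rfl⟩, D.Fs f, ⟨f, hf, rfl⟩, (coe_TT D f).symm, D.Fs g,
      ⟨g, hg, rfl⟩, ?_, rfl⟩
    intro h
    have e : D.Fs g = D.Fs f := (h : _ = _).trans (coe_TT D f)
    exact hne (Fs_sub hD hg hf e.subset).symm

/-- G4-G2 (first step: stacking all facets). -/
theorem gen_facts0 {D : Data α φ} (hD : D.Good) : StepFacts D.l0.toFinset D.fam0 D.adjW := by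
  refine ⟨?_, ?_, ?_⟩
  · rintro Z ⟨f, -, rfl⟩
    exact Fs_subset D f
  · intro u hu t ht htu
    obtain ⟨a, ha, rfl⟩ := mem_l0.1 hu
    obtain ⟨b, hb, rfl⟩ := mem_l0.1 ht
    obtain ⟨f, hf, h1, h2⟩ := hD.fvert a ha b hb (fun h => htu (by rw [h]))
    exact ⟨D.Fs f, ⟨f, hf, rfl⟩, mem_Fs.2 ⟨ha, h1⟩, fun h => h2 (mem_Fs.1 h).2⟩
  · intro u hu w hw huw
    obtain ⟨a, ha, rfl⟩ := mem_l0.1 hu
    obtain ⟨b, hb, rfl⟩ := mem_l0.1 hw
    show _ ↔ D.padj a b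
    constructor
    · intro h
      refine ⟨fun h => huw (by rw [h]), fun t ht hta htb => ?_⟩
      obtain ⟨Z, ⟨f, hf, rfl⟩, h1, h2, h3⟩ := h (W.v t) (mem_l0.2 ⟨t, ht, rfl⟩)
        (fun h => hta (Sum.inl_injective h)) (fun h => htb (Sum.inl_injective h))
      exact ⟨f, hf, (mem_Fs.1 h1).2, (mem_Fs.1 h2).2, fun h => h3 (mem_Fs.2 ⟨ht, h⟩)⟩
    · rintro ⟨-, h⟩ t ht hta htb
      obtain ⟨c, hc, rfl⟩ := mem_l0.1 ht
      obtain ⟨f, hf, h1, h2, h3⟩ := h c hc (fun h => hta (by rw [h])) (fun h => htb (by rw [h]))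
      exact ⟨D.Fs f, ⟨f, hf, rfl⟩, mem_Fs.2 ⟨ha, h1⟩, mem_Fs.2 ⟨hb, h2⟩,
        fun h => h3 (mem_Fs.1 h).2⟩

/-- G4-G2 -/
theorem gen_l1 {D : Data α φ} (hD : D.Good) (h : Realizable D.l0.toFinset D.fam0) :
    Realizable D.l1.toFinset D.fam1 := by
  rw [l1_eq, ← addFam_eq hD]
  refine stack (disj01 D) h (TT D) ?_ ?_ ?_ ?_ ?_
  · intro z hz
    obtain ⟨f, hf, rfl⟩ := mem_BB.1 hz
    exact ⟨f, hf, coe_TT D f⟩
  · rintro z hz Z ⟨g, hg, rfl⟩ hsub
    obtain ⟨f, hf, rfl⟩ := mem_BB.1 hz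
    rw [coe_TT] at hsub ⊢
    rw [Fs_sub hD hf hg hsub]
  · intro z hz y hy he
    exact TT_inj hD hz hy (by rw [he])
  · intro z hz
    rw [← Finset.card_pos]
    have := TT_card hD hz
    omega
  · intro z hz he
    obtain ⟨f, hf, rfl⟩ := mem_BB.1 hz
    obtain ⟨a, ha, hna⟩ := Fs_ne_all hD hf
    have h1 : (W.v a : W α φ) ∈ (TT D (W.x f) : Set (W α φ)) := by
      rw [he]
      exact mem_l0.2 ⟨a, ha, rfl⟩
    rw [coe_TT] at h1
    exact hna (mem_Fs.1 h1).2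

/-- G4-G2 -/
theorem gen_facts1 {D : Data α φ} (hD : D.Good) : StepFacts D.l1.toFinset D.fam1 D.adjW := by
  have h0 := gen_facts0 hD
  have hTA : ∀ z ∈ BB D, TT D z ⊆ D.l0.toFinset := by
    intro z hz
    obtain ⟨f, hf, rfl⟩ := mem_BB.1 hz
    rw [← Finset.coe_subset, coe_TT]
    exact Fs_subset D f
  have hcard : 3 ≤ D.l0.toFinset.card := by
    have h1 : D.l0.Nodup := hD.vnd.map Sum.inl_injective
    rw [List.toFinset_card_of_nodup h1, Data.l0, List.length_map]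
    have := hD.big
    omega
  obtain ⟨k1, k2, k3, k4, k5⟩ := add_adj (disj01 D) h0.sub (VV D)
    (by
      rintro z hz Z rfl
      obtain ⟨f, hf, rfl⟩ := mem_BB.1 hz
      exact ⟨f, hf, coe_TT D f⟩)
    (fun z _ => ⟨_, rfl⟩)
    (by
      intro z hz y hy hzy
      rw [Set.disjoint_left]
      intro Z h1 h2
      exact hzy (TT_inj hD hz hy ((h1 : _ = _).symm.trans (h2 : _ = _)).subset))
    (TT D) hTA
    (by
      rintro z _ Z rfl
      exact le_refl _)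
    (fun z hz => (by norm_num : 2 ≤ 3).trans (TT_card hD hz))
    (by
      intro z hz h2
      have := TT_card hD hz
      omega)
    h0.vert hcard
  rw [addFam_eq hD, ← l1_eq] at k1 k2 k3 k4 k5
  have hx : ∀ f ∈ D.fcodes, ∀ a ∈ D.verts,
      (FAdj D.l1.toFinset D.fam1 (W.x f) (W.v a) ↔ D.mem f a) := by
    intro f hf a ha
    rw [k4 (W.x f) (mem_BB.2 ⟨f, hf, rfl⟩) (W.v a) (mem_l0.2 ⟨a, ha, rfl⟩)]
    constructor
    · rintro ⟨Z, hZ, h1⟩
      rw [show Z = D.Fs f from (hZ : _ = _).trans (coe_TT D f)] at h1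
      exact (mem_Fs.1 h1).2
    · intro h1
      exact ⟨_, rfl, by rw [coe_TT]; exact mem_Fs.2 ⟨ha, h1⟩⟩
  refine ⟨k1, k2, ?_⟩
  intro u hu w hw huw
  rw [l1_eq, Finset.mem_union] at hu hw
  rcases hu with hu | hu <;> rcases hw with hw | hw
  · rw [k3 u hu w hw huw]
    exact h0.adj u hu w hw huw
  · obtain ⟨a, ha, rfl⟩ := mem_l0.1 hu
    obtain ⟨f, hf, rfl⟩ := mem_BB.1 hw
    rw [FAdj_comm]
    exact hx f hf a ha
  · obtain ⟨a, ha, rfl⟩ := mem_l0.1 hw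
    obtain ⟨f, hf, rfl⟩ := mem_BB.1 hu
    exact hx f hf a ha
  · obtain ⟨f, hf, rfl⟩ := mem_BB.1 hu
    obtain ⟨g, hg, rfl⟩ := mem_BB.1 hw
    exact iff_of_false (k5 _ hu _ hw huw) id

end Pool.Agent.Helper91.G4
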