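import Pool.Agent.Helper22.G4.Real

/-! # G4-R1: lengths of the edges of a page with four vertices -/

namespace Pool.Agent.Helper91.G4
open Pool.Agent.Helper22.G4

open Submodule

/-- G4-R1 (lengths of the edges of a page with four vertices). -/
theorem lengths_add {β x y z : ℝ} (hx : 0 < x) (hxβ : x < β) (hβy : β < y) (h : z = x + y) :
    ∃ l₁ l₃ : ℝ, 0 < l₁ ∧ 0 < l₃ ∧ l₁ * (1 / (β - y)) = (l₁ + 1) * (1 / (β - z)) ∧
      l₃ * (1 / (β - x)) = (1 + l₃) * (1 / (β - 0)) ∧
      l₁ * (1 / (β - y)) + l₃ * (1 / (β - x)) = (l₁ + 1 + l₃) * 0 := by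
  have h1 : β - y ≠ 0 := by linarith
  have h2 : β - z ≠ 0 := by
    have : β - z < 0 := by linarith
    exact this.ne
  have h3 : β - x ≠ 0 := by
    have : 0 < β - x := by linarith
    exact this.ne'
  have h4 : β ≠ 0 := by linarith
  have h5 : x ≠ 0 := hx.ne'
  subst h
  refine ⟨(y - β) / x, (β - x) / x, div_pos (by linarith) hx, div_pos (by linarith) hx, ?_, ?_, ?_⟩
  · field_simp
    ring
  · field_simp
    ring
  · field_simp
    ring

theorem lengths_mul {β x y z : ℝ} (hx : 1 < x) (hxβ : x < β) (hβy : β < y) (h : z = x * y) :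
    ∃ l₁ l₃ : ℝ, 0 < l₁ ∧ 0 < l₃ ∧ l₁ * (1 / (β - y)) = (l₁ + 1) * (1 / (β - z)) ∧
      l₃ * (1 / (β - x)) = (1 + l₃) * (1 / (β - 1)) ∧
      l₁ * (1 / (β - y)) + l₃ * (1 / (β - x)) = (l₁ + 1 + l₃) * (1 / (β - 0)) := by
  have hy : 0 < y := by linarith
  have hx1 : 0 < x - 1 := by linarith
  have hyx : y < x * y := by nlinarith
  have h1 : β - y ≠ 0 := by
    have : β - y < 0 := by linarith
    exact this.ne
  have h2 : β - x * y ≠ 0 := by
    have : β - x * y < 0 := by linarith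
    exact this.ne
  have h3 : β - x ≠ 0 := by
    have : 0 < β - x := by linarith
    exact this.ne'
  have h4 : β ≠ 0 := by linarith
  have h4' : β - 1 ≠ 0 := by
    have : 0 < β - 1 := by linarith
    exact this.ne'
  have h5 : x - 1 ≠ 0 := hx1.ne'
  have h6 : y ≠ 0 := hy.ne'
  subst h
  refine ⟨(y - β) / (y * (x - 1)), (β - x) / (x - 1), div_pos (by linarith) (mul_pos hy hx1),
    div_pos (by linarith) hx1, ?_, ?_, ?_⟩
  · rw [mul_one_div, mul_one_div, div_eq_div_iff h1 h2]
    field_simp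
    ring
  · field_simp
    ring
  · rw [sub_zero]
    field_simp
    ring

end Pool.Agent.Helper91.G4
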