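import Pool.Agent.Helper22.G4.Base
import Pool.Agent.Helper22.G4.GenFam
import Pool.Agent.Helper22.G4.St.C0
import Pool.Agent.Helper22.G4.St.S1

/-! # G4-S4: the directions of the edges of page `0` are pairwise independent -/

namespace Pool.Agent.Helper91.G4
open Pool.Agent.Helper22.G4

open Submodule

theorem cyc_mem {α : Type} (l : List α) (i : ℕ) (hi : i + 1 < l.length) :
    (l[i], l[i + 1]) ∈ cycPairs l := by
  have h1 : i < (l.zip (l.tail ++ l.take 1)).length := by
    simp only [List.length_zip, List.length_append, List.length_tail, List.length_take]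
    omega
  have h2 : (l.zip (l.tail ++ l.take 1))[i] = (l[i], l[i + 1]) := by
    rw [List.getElem_zip, List.getElem_append_left (by rw [List.length_tail]; omega),
      List.getElem_tail]
  rw [cycPairs, ← h2]
  exact List.getElem_mem h1

theorem cyc_last {α : Type} (l : List α) (hl : 0 < l.length) :
    (l[l.length - 1], l[0]) ∈ cycPairs l := by
  have h1 : l.length - 1 < (l.zip (l.tail ++ l.take 1)).length := by
    simp only [List.length_zip, List.length_append, List.length_tail, List.length_take]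
    omega
  have h2 : (l.zip (l.tail ++ l.take 1))[l.length - 1] = (l[l.length - 1], l[0]) := by
    rw [List.getElem_zip, List.getElem_append_right (by rw [List.length_tail])]
    congr 1
    rw [List.getElem_take]
    congr 1
    rw [List.length_tail]
    omega
  rw [cycPairs, ← h2]
  exact List.getElem_mem h1

theorem page0_mem_u {I : NF} {i : ℕ} (hi : i < I.N) : Vx.u 0 i (i + 1) ∈ I.page0.1 := by
  show _ ∈ (List.range (I.N - 1)).map (fun i => Vx.u 0 (i + 1) (i + 2)) ++ [Vx.b1, Vx.b2, Vx.u 0 0 1]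
  rw [List.mem_append, List.mem_map]
  rcases Nat.eq_zero_or_pos i with h | h
  · subst h
    right
    simp
  · left
    exact ⟨i - 1, List.mem_range.2 (by omega), by
      rw [show i - 1 + 1 = i by omega, show i - 1 + 2 = i + 1 by omega]⟩

theorem page0_edge {I : NF} {s : ℕ} (hs : 1 ≤ s) (hs' : s < I.N) :
    (Vx.u 0 (s - 1) s, Vx.u 0 s (s + 1)) ∈ cycPairs I.page0.1 := by
  have hl : I.page0.1 = (List.range (I.N - 1)).map (fun i => Vx.u 0 (i + 1) (i + 2)) ++
    [Vx.b1, Vx.b2, Vx.u 0 0 1] := rfl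
  have hlen : I.page0.1.length = I.N - 1 + 3 := by
    rw [hl, List.length_append, List.length_map, List.length_range]
    rfl
  have hget : ∀ i (hi : i < I.N - 1), I.page0.1[i]'(by omega) = Vx.u 0 (i + 1) (i + 2) := by
    intro i hi
    have : (I.page0.1)[i]? = some (Vx.u 0 (i + 1) (i + 2)) := by
      rw [hl, List.getElem?_append_left (by simpa using hi), List.getElem?_map,
        List.getElem?_range hi]
      rfl
    rw [List.getElem?_eq_some_iff] at this
    exact this.2
  rcases Nat.lt_or_ge 1 s with h | h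
  · have h1 := cyc_mem I.page0.1 (s - 2) (by omega)
    have e1 := hget (s - 2) (by omega)
    have e2 := hget (s - 2 + 1) (by omega)
    rw [e1, e2] at h1
    rw [show s - 2 + 1 = s - 1 by omega, show s - 2 + 2 = s by omega,
      show s - 1 + 1 = s by omega, show s - 1 + 2 = s + 1 by omega] at h1
    exact h1
  · obtain rfl : s = 1 := by omega
    have h1 := cyc_last I.page0.1 (by omega)
    have e1 : I.page0.1[I.page0.1.length - 1]'(by omega) = Vx.u 0 0 1 := by
      have : (I.page0.1)[I.page0.1.length - 1]? = some (Vx.u 0 0 1) := by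
        rw [hlen, hl, List.getElem?_append_right (by simp)]
        simp
      rw [List.getElem?_eq_some_iff] at this
      exact this.2
    have e2 := hget 0 (by omega)
    rw [e1, e2] at h1
    exact h1

/-- G4-S4 (the directions of the edges of page `0` are pairwise independent). -/
theorem snd_dirs {I : NF} (hI : I.OK) {c : Vx → E5} (hM : I.data.Model c) {τ : E5 →ₗ[ℝ] ℝ}
    (h1 : τ (c Vx.b1) = 0) (h2 : τ (c Vx.b2) = 0)
    (hp : ∀ v ∈ I.data.verts, v ≠ Vx.b1 → v ≠ Vx.b2 → 0 < τ (c v)) {s s' : ℕ} (hs : 1 ≤ s)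
    (hss : s < s') (hs' : s' < I.N) :
    LinearIndependent ℝ ![
      (τ (c (Vx.u 0 s (s + 1))))⁻¹ • c (Vx.u 0 s (s + 1)) -
        (τ (c (Vx.u 0 (s - 1) s)))⁻¹ • c (Vx.u 0 (s - 1) s),
      (τ (c (Vx.u 0 s' (s' + 1))))⁻¹ • c (Vx.u 0 s' (s' + 1)) -
        (τ (c (Vx.u 0 (s' - 1) s')))⁻¹ • c (Vx.u 0 (s' - 1) s')] := by
  have hflat : I.page0 ∈ I.data.flats := NF.mem_flats.2 (Or.inl rfl)
  have hb1 : Vx.b1 ∈ I.page0.1 := by
    show _ ∈ (List.range (I.N - 1)).map (fun i => Vx.u 0 (i + 1) (i + 2)) ++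
      [Vx.b1, Vx.b2, Vx.u 0 0 1]
    simp
  have hb2 : Vx.b2 ∈ I.page0.1 := by
    show _ ∈ (List.range (I.N - 1)).map (fun i => Vx.u 0 (i + 1) (i + 2)) ++
      [Vx.b1, Vx.b2, Vx.u 0 0 1]
    simp
  have hun1 : ∀ i, Vx.u 0 i (i + 1) ≠ Vx.b1 := fun i h => by simp [Vx.u, Vx.b1] at h
  have hun2 : ∀ i, Vx.u 0 i (i + 1) ≠ Vx.b2 := fun i h => by simp [Vx.u, Vx.b2] at h
  have hmem : ∀ i, i < I.N → Vx.u 0 i (i + 1) ∈ I.data.verts := fun i hi =>
    NF.mem_verts.2 (Or.inr (Or.inr (Or.inl ⟨i, hi, rfl⟩)))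
  have htau : ∀ i, i < I.N → 0 < τ (c (Vx.u 0 i (i + 1))) := fun i hi =>
    hp _ (hmem i hi) (hun1 i) (hun2 i)
  have hinj : ∀ i j, Vx.u 0 i (i + 1) = Vx.u 0 j (j + 1) → i = j := by
    intro i j h
    simp only [Vx.u, Prod.mk.injEq] at h
    exact h.2.2.1
  -- the normalised vertices
  let n : ℕ → E5 := fun i => (τ (c (Vx.u 0 i (i + 1))))⁻¹ • c (Vx.u 0 i (i + 1))
  have hpg : ∀ i j, i < I.N → j < I.N → n i - n j ∈ span ℝ ({c Vx.b1, c Vx.b2} : Set E5) :=
    fun i j hi hj => snd_page hI hM h1 h2 hp hflat hb1 hb2 (page0_mem_u hi) (page0_mem_u hj)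
      (hun1 i) (hun2 i) (hun1 j) (hun2 j)
  have hne : ∀ i j, i < I.N → j < I.N → i ≠ j → n i - n j ≠ 0 := by
    intro i j hi hj hij h0
    have hli := conf_pair hM.conf (List.mem_toFinset.2 (hmem i hi))
      (List.mem_toFinset.2 (hmem j hj)) (fun h => hij (hinj i j h))
    rw [LinearIndependent.pair_iff] at hli
    have := hli (τ (c (Vx.u 0 i (i + 1))))⁻¹ (-(τ (c (Vx.u 0 j (j + 1))))⁻¹) (by
      rw [neg_smul, ← sub_eq_add_neg]
      exact h0)
    exact (inv_ne_zero (htau i hi).ne') this.1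
  -- the functionals of the edges
  have hface : ∀ t, 1 ≤ t → t < I.N → ∃ f : E5 →ₗ[ℝ] ℝ, f (n (t - 1)) = 0 ∧ f (n t) = 0 ∧
      0 < f (c Vx.b1) ∧ 0 < f (c Vx.b2) ∧ (∀ j, j < I.N → 0 ≤ f (n j)) ∧
      ∀ j, j < I.N → j ≠ t - 1 → j ≠ t → 0 < f (n j) := by
    intro t ht ht'
    obtain ⟨-, f, hf1, hf2⟩ := hM.edge _ hflat _ (page0_edge ht ht')
    have hz : ∀ w ∈ I.data.verts, w ≠ Vx.u 0 (t - 1) t → w ≠ Vx.u 0 t (t + 1) → 0 < f (c w) := by
      intro w hw hw1 hw2
      refine lt_of_le_of_ne (hf1 w (List.mem_toFinset.2 hw)) fun h => ?_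
      have := (hf2 w (List.mem_toFinset.2 hw)).1 h.symm
      simp only [Set.mem_insert_iff, Set.mem_singleton_iff] at this
      rcases this with h | h
      · exact hw1 h
      · exact hw2 h
    have hpred : Vx.u 0 (t - 1) t = Vx.u 0 (t - 1) (t - 1 + 1) := by
      rw [show t - 1 + 1 = t by omega]
    refine ⟨f, ?_, ?_, ?_, ?_, ?_, ?_⟩
    · have := (hf2 _ (List.mem_toFinset.2 (hmem (t - 1) (by omega)))).2 (by
        rw [← hpred]; simp)
      simp only [n, map_smul, this, smul_zero]
    · have := (hf2 _ (List.mem_toFinset.2 (hmem t ht'))).2 (by simp)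
      simp only [n, map_smul, this, smul_zero]
    · refine hz _ NF.b_mem.1 (fun h => ?_) (fun h => hun1 t h.symm)
      rw [hpred] at h
      exact hun1 _ h.symm
    · refine hz _ NF.b_mem.2 (fun h => ?_) (fun h => hun2 t h.symm)
      rw [hpred] at h
      exact hun2 _ h.symm
    · intro j hj
      simp only [n, map_smul, smul_eq_mul]
      exact mul_nonneg (inv_nonneg.2 (htau j hj).le) (hf1 _ (List.mem_toFinset.2 (hmem j hj)))
    · intro j hj hj1 hj2
      simp only [n, map_smul, smul_eq_mul]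
      refine mul_pos (inv_pos.2 (htau j hj)) (hz _ (hmem j hj) (fun h => ?_)
        (fun h => hj2 (hinj _ _ h)))
      rw [hpred] at h
      exact hj1 (hinj _ _ h)
  obtain ⟨f, f1, f2, f3, f4, f5, f6⟩ := hface s hs (by omega)
  obtain ⟨g, g1, g2, g3, g4, g5, g6⟩ := hface s' (by omega) hs'
  have e1 : (τ (c (Vx.u 0 (s - 1) s)))⁻¹ • c (Vx.u 0 (s - 1) s) = n (s - 1) := by
    simp only [n]
    rw [show s - 1 + 1 = s by omega]
  have e2 : (τ (c (Vx.u 0 (s' - 1) s')))⁻¹ • c (Vx.u 0 (s' - 1) s') = n (s' - 1) := by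
    simp only [n]
    rw [show s' - 1 + 1 = s' by omega]
  rw [e1, e2]
  show LinearIndependent ℝ ![n s - n (s - 1), n s' - n (s' - 1)]
  rw [LinearIndependent.pair_iff]
  intro α β hαβ
  by_cases hα : α = 0
  · refine ⟨hα, ?_⟩
    rw [hα, zero_smul, zero_add] at hαβ
    rcases smul_eq_zero.1 hαβ with h | h
    · exact h
    · exact absurd h (hne s' (s' - 1) hs' (by omega) (by omega))
  · exfalso
    have hg : g (n s - n (s - 1)) = 0 := by
      have := congrArg g hαβ
      rw [map_add, map_smul, map_smul, map_zero, map_sub g (n s'), g1, g2, sub_zero, smul_zero,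
        add_zero, smul_eq_mul] at this
      rcases mul_eq_zero.1 this with h | h
      · exact absurd h hα
      · exact h
    have hf : f (n s - n (s - 1)) = 0 := by rw [map_sub, f1, f2, sub_zero]
    have hD := hne s (s - 1) (by omega) (by omega) (by omega)
    obtain ⟨a₀, b₀, hab⟩ := mem_span_pair.1 (hpg s (s - 1) (by omega) (by omega))
    obtain ⟨a, b, hw⟩ := mem_span_pair.1 (hpg s' s hs' (by omega))
    rw [← hab, map_add, map_smul, map_smul, smul_eq_mul, smul_eq_mul] at hf hg
    have hw1 : a * f (c Vx.b1) + b * f (c Vx.b2) = f (n s') := by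
      have := congrArg f hw
      rw [map_add, map_smul, map_smul, map_sub, f2, sub_zero, smul_eq_mul, smul_eq_mul] at this
      exact this
    have hw2 : a * g (c Vx.b1) + b * g (c Vx.b2) = - g (n s) := by
      have := congrArg g hw
      rw [map_add, map_smul, map_smul, map_sub, g2, zero_sub, smul_eq_mul, smul_eq_mul] at this
      exact this
    have hprop : f (c Vx.b1) * g (c Vx.b2) = f (c Vx.b2) * g (c Vx.b1) := by
      by_cases ha : a₀ = 0
      · have hb : b₀ ≠ 0 := by
          rintro rfl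
          apply hD
          rw [← hab, ha, zero_smul, zero_smul, add_zero]
        have : b₀ * (f (c Vx.b1) * g (c Vx.b2) - f (c Vx.b2) * g (c Vx.b1)) = 0 := by
          linear_combination f (c Vx.b1) * hg - g (c Vx.b1) * hf
        rcases mul_eq_zero.1 this with h | h
        · exact absurd h hb
        · linarith
      · have : a₀ * (f (c Vx.b1) * g (c Vx.b2) - f (c Vx.b2) * g (c Vx.b1)) = 0 := by
          linear_combination g (c Vx.b2) * hf - f (c Vx.b2) * hg
        rcases mul_eq_zero.1 this with h | h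
        · exact absurd h ha
        · linarith
    have hfin : f (c Vx.b1) * (- g (n s)) = g (c Vx.b1) * f (n s') := by
      rw [← hw1, ← hw2]
      linear_combination b * hprop
    have p1 : 0 < f (n s') := f6 s' hs' (by omega) (by omega)
    have p2 : 0 ≤ g (n s) := g5 s (by omega)
    have p3 : 0 < g (c Vx.b1) * f (n s') := mul_pos g3 p1
    have p4 : 0 ≤ f (c Vx.b1) * g (n s) := mul_nonneg f3.le p2
    linarith

end Pool.Agent.Helper91.G4
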