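import Pool.Agent.Helper22.G4.Poly
import Pool.Agent.Helper22.G4.St.T1
import Pool.Agent.Helper22.G4.St.T2
import Pool.Agent.Helper22.G4.St.T3
import Pool.Agent.Helper22.G4.St.T4
import Pool.Agent.Helper22.G4.St.T5
import Pool.Agent.Helper22.G4.St.T6
import Pool.Agent.Helper22.G4.St.T7

/-! # G4-T8: the reduction to GRAPH4 is computable in polynomial time -/

namespace Pool.Agent.Helper91.G4

open Pool.Agent.Helper22.G4

open Pool.Agent.Helper89 Pool.Agent.Helper91.PolyTime

/-- code of a token -/
def tokCode (t : Tok) : List Bool := (tokBits t).flatMap (fun b => [true, b]) ++ [false]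

lemma flatMap_tokCode (l : List Tok) : l.flatMap tokCode = PEnc.enc l := by
  induction l with
  | nil => rfl
  | cons a l ih =>
    rw [List.flatMap_cons, ih, enc_cons]
    show (tokBits a).flatMap (fun b => [true, b]) ++ [false] ++ PEnc.enc l =
      (tokBits a).flatMap (fun b => [true, b]) ++ false :: PEnc.enc l
    rw [List.append_assoc, List.singleton_append]

/-- the data of a list of tokens -/
lemma ptf_nf : PTF fun ts : List Tok => nfQ (quadsOf ts) :=
  PTF.comp (g := fun L : List Q4 => nfQ L) ptf_nfQ ptf_quadsOf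

/-- G4-T8 -/
theorem tm2_graph4Of :
    Nonempty (Turing.TM2ComputableInPolyTime QFormula.enc EdgeList.enc graph4Of) := by
  refine PT.tm2 QFormula.enc EdgeList.enc tokCode graph4Of ?_
  have hv : PTF fun ts : List Tok => (nfQ (quadsOf ts)).data.verts :=
    PTF.comp (g := fun I : NF => I.data.verts) ptf_verts ptf_nf
  have hf : PTF fun ts : List Tok => (nfQ (quadsOf ts)).data.fcodes :=
    PTF.comp (g := fun I : NF => I.data.fcodes) ptf_fcodes ptf_nf
  have hr : PTF fun ts : List Tok => (nfQ (quadsOf ts)).data.flats :=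
    PTF.comp (g := fun I : NF => I.data.flats) ptf_flats ptf_nf
  have hm : PTF fun p : List Tok × Fc × Vx => (nfQ (quadsOf p.1)).data.mem p.2.1 p.2.2 :=
    PTF.comp (g := fun p : NF × Fc × Vx => p.1.data.mem p.2.1 p.2.2)
      (f := fun p : List Tok × Fc × Vx => (nfQ (quadsOf p.1), p.2)) ptf_mem
      (PTF.pair (PTF.comp (g := fun ts : List Tok => nfQ (quadsOf ts)) ptf_nf
        (PTF.fst PTF.id)) (PTF.snd PTF.id))
  have hX := ptf_allX (D := fun ts : List Tok => (nfQ (quadsOf ts)).data) hv hf hr
  have hE := ptf_edgesX (D := fun ts : List Tok => (nfQ (quadsOf ts)).data) hv hf hr hm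
  have h := (pt_toEdgeList hX hE).reindex QFormula.enc
  have he : (fun φ : QFormula => φ.enc.flatMap tokCode) = fun φ => PEnc.enc φ.enc := by
    funext φ; exact flatMap_tokCode _
  rw [he]
  exact h

end Pool.Agent.Helper91.G4
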